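import Pool.Agent.Q192.KT.EX
import Pool.Agent.Q234.KT.Stm2

/-!
# Project KT of helper234, job KT-E2: the exponential of a function of arbitrary size (helper224)

The proof of `Pool.Agent.Q192.KT.EX.main` (helper192) without the condition `M ≤ 1`.
-/

set_option autoImplicit false

open scoped BigOperators
open Finset

namespace Pool.Agent.Q224.KT.E2

open Pool.Agent.Q234.KT
open Pool.Agent.Q192.KT.EX (NN nm_eq nx_eq NN_nonneg co_add co_smul NN_add NN_smul NN_hasSum hasSum_exp')

theorem main (hA : AlgS) : ExpG := by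
  intro V _ _ t r S ht hr hS F F' M hF hF'
  have hr0 : (0 : ℝ) ≤ r := by linarith
  have hM0 : 0 ≤ M := (NN_nonneg hr0 t S univ F).trans hF
  set D : (V → Fin 2) → ℂ := fun σ => F σ - F' σ with hD
  set N : ((V → Fin 2) → ℂ) → ℝ := NN r t S univ with hN
  have hN0 : ∀ G, 0 ≤ N G := fun G => NN_nonneg hr0 t S univ G
  have hmul : ∀ G H : (V → Fin 2) → ℂ, N (fun σ => G σ * H σ) ≤ N G * N H :=
    fun G H => (hA V t r S ht hr hS G H).1
  have hmulx : ∀ (x : V) (G H : (V → Fin 2) → ℂ), nx r t S x (fun σ => G σ * H σ) ≤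
      nx r t S x G * N H + N G * nx r t S x H := fun x G H => (hA V t r S ht hr hS G H).2 x
  have hx0 : ∀ (x : V) G, 0 ≤ nx r t S x G := fun x G => NN_nonneg hr0 t S _ G
  have haddN : ∀ G H : (V → Fin 2) → ℂ, N (fun σ => G σ + H σ) ≤ N G + N H :=
    fun G H => NN_add hr0 t S univ G H
  have haddx : ∀ (x : V) (G H : (V → Fin 2) → ℂ), nx r t S x (fun σ => G σ + H σ) ≤
      nx r t S x G + nx r t S x H := fun x G H => NN_add hr0 t S _ G H
  have hFM : N F ≤ M := hF
  have hFM' : N F' ≤ M := hF'
  -- powers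
  have hpN : ∀ j : ℕ, N (fun σ => F σ ^ (j + 1)) ≤ M ^ (j + 1) := by
    intro j
    induction j with
    | zero => simpa using hFM
    | succ j ih =>
      have e : (fun σ => F σ ^ (j + 1 + 1)) = fun σ => (fun σ => F σ ^ (j + 1)) σ * F σ := by
        funext σ; exact pow_succ _ _
      rw [e]
      refine (hmul _ _).trans ?_
      rw [pow_succ]
      exact mul_le_mul ih hFM (hN0 _) (pow_nonneg hM0 _)
  have hpX : ∀ (x : V) (j : ℕ), nx r t S x (fun σ => F σ ^ (j + 1)) ≤ (j + 1) * M ^ j * nx r t S x F := by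
    intro x j
    induction j with
    | zero => simp
    | succ j ih =>
      have e : (fun σ => F σ ^ (j + 1 + 1)) = fun σ => (fun σ => F σ ^ (j + 1)) σ * F σ := by
        funext σ; exact pow_succ _ _
      rw [e]
      refine (hmulx x _ _).trans ?_
      have h1 : nx r t S x (fun σ => F σ ^ (j + 1)) * N F ≤ ((j + 1) * M ^ j * nx r t S x F) * M :=
        mul_le_mul ih hFM (hN0 _) (mul_nonneg (by positivity) (hx0 x F))
      have h2 : N (fun σ => F σ ^ (j + 1)) * nx r t S x F ≤ M ^ (j + 1) * nx r t S x F :=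
        mul_le_mul_of_nonneg_right (hpN j) (hx0 x F)
      push_cast
      calc _ ≤ ((j + 1) * M ^ j * nx r t S x F) * M + M ^ (j + 1) * nx r t S x F := add_le_add h1 h2
        _ = (j + 1 + 1) * M ^ (j + 1) * nx r t S x F := by ring
  have estep : ∀ j : ℕ, (fun σ => F σ ^ (j + 2) - F' σ ^ (j + 2)) =
      fun σ => (fun σ => (fun σ => F σ ^ (j + 1)) σ * D σ) σ +
        (fun σ => (fun σ => F σ ^ (j + 1) - F' σ ^ (j + 1)) σ * F' σ) σ := by
    intro j
    funext σ
    simp only [hD]
    ring
  have hdN : ∀ j : ℕ, N (fun σ => F σ ^ (j + 1) - F' σ ^ (j + 1)) ≤ (j + 1) * M ^ j * N D := by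
    intro j
    induction j with
    | zero => simp [hD]
    | succ j ih =>
      rw [show j + 1 + 1 = j + 2 from rfl, estep j]
      refine (haddN _ _).trans ?_
      have h1 := hmul (fun σ => F σ ^ (j + 1)) D
      have h2 := hmul (fun σ => F σ ^ (j + 1) - F' σ ^ (j + 1)) F'
      have h3 : N (fun σ => F σ ^ (j + 1)) * N D ≤ M ^ (j + 1) * N D :=
        mul_le_mul_of_nonneg_right (hpN j) (hN0 _)
      have h4 : N (fun σ => F σ ^ (j + 1) - F' σ ^ (j + 1)) * N F' ≤ ((j + 1) * M ^ j * N D) * M :=
        mul_le_mul ih hFM' (hN0 _) (mul_nonneg (by positivity) (hN0 _))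
      push_cast
      calc _ ≤ M ^ (j + 1) * N D + ((j + 1) * M ^ j * N D) * M := add_le_add (h1.trans h3) (h2.trans h4)
        _ = (j + 1 + 1) * M ^ (j + 1) * N D := by ring
  have hB : ∀ (x : V) (j : ℕ), nx r t S x (fun σ => F σ ^ (j + 1) - F' σ ^ (j + 1)) ≤
      (j + 1) * M ^ j * nx r t S x D +
        (j + 1) * (j * M ^ (j - 1)) * (N D * (nx r t S x F + nx r t S x F')) := by
    intro x j
    have hE0 : 0 ≤ N D * (nx r t S x F + nx r t S x F') :=
      mul_nonneg (hN0 _) (add_nonneg (hx0 x F) (hx0 x F'))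
    induction j with
    | zero => simp [hD]
    | succ j ih =>
      rw [show j + 1 + 1 = j + 2 from rfl, estep j]
      refine (haddx x _ _).trans ?_
      have h1 := hmulx x (fun σ => F σ ^ (j + 1)) D
      have h2 := hmulx x (fun σ => F σ ^ (j + 1) - F' σ ^ (j + 1)) F'
      have h3 : nx r t S x (fun σ => F σ ^ (j + 1)) * N D ≤ ((j + 1) * M ^ j * nx r t S x F) * N D :=
        mul_le_mul_of_nonneg_right (hpX x j) (hN0 _)
      have h4 : N (fun σ => F σ ^ (j + 1)) * nx r t S x D ≤ M ^ (j + 1) * nx r t S x D :=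
        mul_le_mul_of_nonneg_right (hpN j) (hx0 x D)
      have h5 : nx r t S x (fun σ => F σ ^ (j + 1) - F' σ ^ (j + 1)) * N F' ≤
          ((j + 1) * M ^ j * nx r t S x D +
            (j + 1) * (j * M ^ (j - 1)) * (N D * (nx r t S x F + nx r t S x F'))) * M :=
        mul_le_mul ih hFM' (hN0 _) (add_nonneg (mul_nonneg (by positivity) (hx0 x D))
          (mul_nonneg (by positivity) hE0))
      have h6 : N (fun σ => F σ ^ (j + 1) - F' σ ^ (j + 1)) * nx r t S x F' ≤
          ((j + 1) * M ^ j * N D) * nx r t S x F' :=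
        mul_le_mul_of_nonneg_right (hdN j) (hx0 x F')
      have h7 : (j : ℝ) * M ^ (j - 1) * M = j * M ^ j := by
        cases j with
        | zero => simp
        | succ j =>
          rw [Nat.add_sub_cancel, pow_succ]
          ring
      have h8 : 0 ≤ (j + 1) * M ^ j * (N D * (nx r t S x F + nx r t S x F')) :=
        mul_nonneg (by positivity) hE0
      have h9 : ((j + 1) * M ^ j * nx r t S x D +
            (j + 1) * (j * M ^ (j - 1)) * (N D * (nx r t S x F + nx r t S x F'))) * M =
          (j + 1) * M ^ (j + 1) * nx r t S x D +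
            (j + 1) * (j * M ^ j) * (N D * (nx r t S x F + nx r t S x F')) := by
        rw [← h7]
        ring
      rw [h9] at h5
      rw [Nat.add_sub_cancel]
      push_cast
      calc _ ≤ (((j + 1) * M ^ j * nx r t S x F) * N D + M ^ (j + 1) * nx r t S x D) +
            (((j + 1) * M ^ (j + 1) * nx r t S x D +
              (j + 1) * (j * M ^ j) * (N D * (nx r t S x F + nx r t S x F'))) +
            ((j + 1) * M ^ j * N D) * nx r t S x F') :=
              add_le_add (h1.trans (add_le_add h3 h4)) (h2.trans (add_le_add h5 h6))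
        _ = (j + 1 + 1) * M ^ (j + 1) * nx r t S x D +
            (j + 1) * ((j + 1) * M ^ j) * (N D * (nx r t S x F + nx r t S x F')) := by ring
        _ ≤ _ := by
          have h10 : (j + 1 + 1) * ((j + 1) * M ^ j) * (N D * (nx r t S x F + nx r t S x F')) =
              (j + 1) * ((j + 1) * M ^ j) * (N D * (nx r t S x F + nx r t S x F')) +
                (j + 1) * M ^ j * (N D * (nx r t S x F + nx r t S x F')) := by ring
          rw [h10]
          linarith
  -- the series
  have hser : ∀ σ, HasSum (fun k : ℕ => (1 / (k.factorial : ℂ)) * (F σ ^ k - F' σ ^ k))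
      (Complex.exp (F σ) - Complex.exp (F' σ)) := by
    intro σ
    refine ((hasSum_exp' (F σ)).sub (hasSum_exp' (F' σ))).congr_fun ?_
    intro k
    ring
  have hser1 : ∀ σ, HasSum (fun k : ℕ => (1 / ((k + 1).factorial : ℂ)) *
      (F σ ^ (k + 1) - F' σ ^ (k + 1))) (Complex.exp (F σ) - Complex.exp (F' σ)) := by
    intro σ
    have h := (hasSum_nat_add_iff' 1).2 (hser σ)
    simpa using h
  have hnf : ∀ k : ℕ, ‖(1 / (k.factorial : ℂ))‖ = 1 / (k.factorial : ℝ) := by
    intro k
    rw [norm_div, norm_one, Complex.norm_natCast]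
  have hfac : ∀ j : ℕ, ((j + 1).factorial : ℝ) = (j + 1) * (j.factorial : ℝ) := by
    intro j
    rw [Nat.factorial_succ]
    push_cast
    ring
  have hf0 : ∀ j : ℕ, (0 : ℝ) < (j.factorial : ℝ) := fun j => by exact_mod_cast j.factorial_pos
  have hsum : ∀ n : ℕ, ∑ k ∈ range n, M ^ k / (k.factorial : ℝ) ≤ Real.exp M :=
    fun n => Real.sum_le_exp_of_nonneg hM0 n
  have hsumj : ∀ n : ℕ, ∑ k ∈ range n, (k : ℝ) * M ^ (k - 1) / (k.factorial : ℝ) ≤ Real.exp M := by
    intro n
    cases n with
    | zero =>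
      rw [Finset.sum_range_zero]
      exact (Real.exp_pos M).le
    | succ n =>
      rw [Finset.sum_range_succ']
      simp only [Nat.cast_zero, zero_mul, zero_div, add_zero]
      refine le_trans (le_of_eq ?_) (hsum n)
      refine Finset.sum_congr rfl fun k _ => ?_
      rw [hfac k, Nat.add_sub_cancel]
      push_cast
      have := (hf0 k).ne'
      have hk : ((k : ℝ) + 1) ≠ 0 := by positivity
      field_simp
  refine ⟨?_, fun x => ?_⟩
  · refine (NN_hasSum hr0 t S univ
      (fun k σ => (1 / ((k + 1).factorial : ℂ)) * (F σ ^ (k + 1) - F' σ ^ (k + 1))) _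
      (fun σ => hser1 σ) (fun k => M ^ k / (k.factorial : ℝ) * N D) ?_ (Real.exp M * N D) ?_)
    · intro k
      rw [NN_smul, hnf]
      calc 1 / ((k + 1).factorial : ℝ) * NN r t S univ (fun σ => F σ ^ (k + 1) - F' σ ^ (k + 1))
          ≤ 1 / ((k + 1).factorial : ℝ) * ((k + 1) * M ^ k * N D) :=
            mul_le_mul_of_nonneg_left (hdN k) (by positivity)
        _ = M ^ k / (k.factorial : ℝ) * N D := by
            rw [hfac k]
            have := (hf0 k).ne'
            have hk : ((k : ℝ) + 1) ≠ 0 := by positivity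
            field_simp
    · intro n
      rw [← Finset.sum_mul]
      exact mul_le_mul_of_nonneg_right (hsum n) (hN0 D)
  · have hE0 : 0 ≤ N D * (nx r t S x F + nx r t S x F') :=
      mul_nonneg (hN0 _) (add_nonneg (hx0 x F) (hx0 x F'))
    have key : nx r t S x (fun σ => Complex.exp (F σ) - Complex.exp (F' σ)) ≤
        Real.exp M * nx r t S x D + Real.exp M * (N D * (nx r t S x F + nx r t S x F')) := by
      refine (NN_hasSum hr0 t S (univ.filter (fun X : Finset V => x ∈ X))
        (fun k σ => (1 / ((k + 1).factorial : ℂ)) * (F σ ^ (k + 1) - F' σ ^ (k + 1))) _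
        (fun σ => hser1 σ)
        (fun k => M ^ k / (k.factorial : ℝ) * nx r t S x D +
          (k : ℝ) * M ^ (k - 1) / (k.factorial : ℝ) * (N D * (nx r t S x F + nx r t S x F'))) ?_ _ ?_)
      · intro k
        rw [NN_smul, hnf, ← nx_eq]
        calc 1 / ((k + 1).factorial : ℝ) * nx r t S x (fun σ => F σ ^ (k + 1) - F' σ ^ (k + 1))
            ≤ 1 / ((k + 1).factorial : ℝ) * ((k + 1) * M ^ k * nx r t S x D +
                (k + 1) * (k * M ^ (k - 1)) * (N D * (nx r t S x F + nx r t S x F'))) :=
              mul_le_mul_of_nonneg_left (hB x k) (by positivity)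
          _ = _ := by
              rw [hfac k]
              have := (hf0 k).ne'
              have hk : ((k : ℝ) + 1) ≠ 0 := by positivity
              field_simp
      · intro n
        rw [Finset.sum_add_distrib, ← Finset.sum_mul, ← Finset.sum_mul]
        exact add_le_add (mul_le_mul_of_nonneg_right (hsum n) (hx0 x D))
          (mul_le_mul_of_nonneg_right (hsumj n) hE0)
    have e : nm r t S (fun σ => F σ - F' σ) = N D := rfl
    rw [e]
    show _ ≤ Real.exp M * nx r t S x D + _
    rw [mul_assoc]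
    exact key

end Pool.Agent.Q224.KT.E2
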